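import Mathlib

/-!
# MP_f02e69_co: size functions of `𝓤(q)`-classes

For `q = 6` and the collection consisting of the rank-three whirl only, the largest prime power
`r ≤ 6` such that the whirl is not `GF(r)`-representable is `2`, but for every `n ≥ 2` the class of
matroids with neither a whirl-minor nor a `U_{2,8}`-minor contains a simple matroid of rank `n`
with `2 ^ (n + 1) - 1` elements: the truncation to rank `n` of the binary projective geometry of
rank `n + 1`.
-/

namespace Pool.Agent.Results.MP_f02e69_co.TruncatedBinary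

open Set Matroid Module

/-- `K` is isomorphic to `N`: a bijection between the ground sets preserves independence. -/
def Isom {α β : Type} (K : Matroid α) (N : Matroid β) : Prop :=
  ∃ e : K.E ≃ N.E, ∀ I : Set K.E,
    K.Indep (Subtype.val '' I) ↔ N.Indep (Subtype.val '' (e '' I))

/-- `G` has a minor isomorphic to `N`. -/
def HasMinor {α β : Type} (G : Matroid α) (N : Matroid β) : Prop :=
  ∃ K : Matroid α, K ≤m G ∧ Isom K N

/-- `K` is a `k`-point line `U_{2,k}`: it has `k` elements, and its independent sets are the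
sets with at most two elements. -/
def IsLine {α : Type} (K : Matroid α) (k : ℕ) : Prop :=
  K.E.ncard = k ∧ ∀ I ⊆ K.E, (K.Indep I ↔ I.encard ≤ 2)

/-- The class `𝓤(q)` of matroids with no `U_{2,q+2}`-minor. -/
def InU (q : ℕ) {α : Type} (G : Matroid α) : Prop :=
  ¬ ∃ K : Matroid α, K ≤m G ∧ IsLine K (q + 2)

/-- The class `𝓛(r)` of matroids representable over a field with `r` elements. -/
def InL (r : ℕ) {α : Type} (G : Matroid α) : Prop :=
  ∃ (F : Type) (_ : Field F), Nat.card F = r ∧ ∃ (n : ℕ) (φ : α → (Fin n → F)),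
    ∀ I ⊆ G.E, (G.Indep I ↔ LinearIndepOn F φ I)

/-- The number of points (rank-one flats) of `G`. -/
noncomputable def numPoints {α : Type} (G : Matroid α) : ℕ :=
  {P : Set α | G.IsFlat P ∧ G.eRk P = 1}.ncard

/-- The numbers of points of the rank-`n` matroids in `𝓔𝓧(M_α) ∩ 𝓤(q)`. -/
def sizes (q : ℕ) {ι : Type} {β : ι → Type} (M : ∀ i, Matroid (β i)) (n : ℕ) : Set ℕ :=
  {k | ∃ (α : Type) (G : Matroid α), G.Finite ∧ (∀ i, ¬ HasMinor G (M i)) ∧ InU q G ∧
    G.eRank = n ∧ numPoints G = k}

/-- The prime powers `r ≤ q` such that no `M_α` is representable over `GF(r)`. -/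
def goodPowers (q : ℕ) {ι : Type} {β : ι → Type} (M : ∀ i, Matroid (β i)) : Set ℕ :=
  {r | IsPrimePow r ∧ r ≤ q ∧ ∀ i, ¬ InL r (M i)}

/-- The statement of Q1. -/
def Conjecture : Prop :=
  ∀ q : ℕ, 2 ≤ q → ∀ (ι : Type) (β : ι → Type) (M : ∀ i, Matroid (β i)),
    (∀ i, (M i).Finite ∧ InU q (M i)) → ∀ r, IsGreatest (goodPowers q M) r →
      ∃ N, ∀ n ≥ N, IsGreatest (sizes q M n) ((r ^ n - 1) / (r - 1))

/-! ### The whirl -/

/-- The independent sets of the rank-three whirl with the lines `{0,1,3}`, `{1,2,4}`,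
`{0,2,5}`. -/
def wInd (I : Finset (Fin 6)) : Prop :=
  I.card ≤ 3 ∧ I ≠ {0, 1, 3} ∧ I ≠ {1, 2, 4} ∧ I ≠ {0, 2, 5}

instance : DecidablePred wInd := fun I => by unfold wInd; infer_instance

/-- The rank-three whirl. -/
def whirl : Matroid (Fin 6) :=
  (IndepMatroid.ofFinset (Set.univ : Set (Fin 6)) wInd
    (by decide) (by decide +kernel) (by decide +kernel) (fun _ _ => Set.subset_univ _)).matroid

theorem whirl_E : whirl.E = Set.univ := rfl

theorem whirl_indep (I : Finset (Fin 6)) : whirl.Indep (I : Set (Fin 6)) ↔ wInd I := by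
  have := IndepMatroid.ofFinset_indep (Set.univ : Set (Fin 6)) wInd
    (by decide) (by decide +kernel) (by decide +kernel) (fun _ _ => Set.subset_univ _) (I := I)
  exact this

/-- In a vector space over a field with two elements, three pairwise distinct nonzero dependent
vectors have sum zero. -/
theorem sum_zero {F : Type} [Field F] (hF : ∀ a : F, a = 0 ∨ a = 1) {W : Type} [AddCommGroup W]
    [Module F W] {ι : Type} (x : ι → W) (i j k : ι) (hij : x i ≠ x j) (hik : x i ≠ x k)
    (hjk : x j ≠ x k) (hi : x i ≠ 0) (hj : x j ≠ 0) (hk : x k ≠ 0)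
    (h : ¬ LinearIndepOn F x {i, j, k}) : x k = x i + x j := by
  have hij' : i ≠ j := fun h => hij (by rw [h])
  have hik' : i ≠ k := fun h => hik (by rw [h])
  have hjk' : j ≠ k := fun h => hjk (by rw [h])
  have hpair : LinearIndepOn F x {i, j} := by
    rw [show ({i, j} : Set ι) = insert i {j} from rfl, linearIndepOn_insert (by simpa using hij')]
    refine ⟨LinearIndepOn.singleton hj, ?_⟩
    rw [image_singleton, Submodule.mem_span_singleton]
    rintro ⟨a, ha⟩
    rcases hF a with rfl | rfl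
    · exact hi (by rw [← ha, zero_smul])
    · exact hij (by rw [← ha, one_smul])
  by_contra hne
  apply h
  have : ({i, j, k} : Set ι) = insert k {i, j} := by
    ext t; simp only [mem_insert_iff, mem_singleton_iff]; tauto
  rw [this, linearIndepOn_insert (by simp [Ne.symm hik', Ne.symm hjk'])]
  refine ⟨hpair, ?_⟩
  rw [image_pair, Submodule.mem_span_pair]
  rintro ⟨a, b, hab⟩
  rcases hF a with rfl | rfl <;> rcases hF b with rfl | rfl
  · exact hk (by rw [← hab]; simp)
  · exact hjk (by rw [← hab]; simp)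
  · exact hik (by rw [← hab]; simp)
  · exact hne (by rw [← hab]; simp)

theorem two_zero {F : Type} [Field F] (hF : ∀ a : F, a = 0 ∨ a = 1) : (1 : F) + 1 = 0 := by
  rcases hF (1 + 1) with h | h
  · exact h
  · have : (1 : F) = 0 := by linear_combination h
    exact absurd this one_ne_zero

/-- No vectors over a field with two elements can be dependent as in the whirl. -/
theorem no_whirl {F : Type} [Field F] (hF : ∀ a : F, a = 0 ∨ a = 1) {W : Type}
    [AddCommGroup W] [Module F W] (x : Fin 6 → W)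
    (hp : ∀ i j : Fin 6, LinearIndepOn F x {i, j})
    (h1 : ¬ LinearIndepOn F x {0, 1, 3}) (h2 : ¬ LinearIndepOn F x {1, 2, 4})
    (h3 : ¬ LinearIndepOn F x {0, 2, 5}) : ¬ LinearIndepOn F x {3, 4, 5} := by
  have h0 : ∀ i, x i ≠ 0 := fun i => (hp i i).ne_zero (by simp)
  have hne : ∀ i j, i ≠ j → x i ≠ x j := fun i j hij h =>
    hij ((hp i j).injOn (by simp) (by simp) h)
  have e1 := sum_zero hF x 0 1 3 (hne _ _ (by decide)) (hne _ _ (by decide))
    (hne _ _ (by decide)) (h0 _) (h0 _) (h0 _) h1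
  have e2 := sum_zero hF x 1 2 4 (hne _ _ (by decide)) (hne _ _ (by decide))
    (hne _ _ (by decide)) (h0 _) (h0 _) (h0 _) h2
  have e3 := sum_zero hF x 0 2 5 (hne _ _ (by decide)) (hne _ _ (by decide))
    (hne _ _ (by decide)) (h0 _) (h0 _) (h0 _) h3
  have h2x : ∀ w : W, w + w = 0 := by
    intro w
    have := two_zero hF
    calc w + w = ((1 : F) + 1) • w := by rw [add_smul, one_smul]
      _ = 0 := by rw [this, zero_smul]
  have e4 : x 5 = x 3 + x 4 := by
    rw [e1, e2, e3]
    have := h2x (x 1)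
    calc x 0 + x 2 = x 0 + x 2 + (x 1 + x 1) := by rw [this, add_zero]
      _ = x 0 + x 1 + (x 1 + x 2) := by abel
  intro hI
  rw [show ({3, 4, 5} : Set (Fin 6)) = insert 5 {3, 4} by
    ext t; simp only [mem_insert_iff, mem_singleton_iff]; tauto,
    linearIndepOn_insert (by simp)] at hI
  apply hI.2
  rw [image_pair, Submodule.mem_span_pair]
  exact ⟨1, 1, by rw [one_smul, one_smul, e4]⟩

theorem field_two {F : Type} [Field F] (h : Nat.card F = 2) (a : F) : a = 0 ∨ a = 1 := by
  have hfin : Finite F := Nat.finite_of_card_ne_zero (by omega)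
  by_contra hcon
  push Not at hcon
  have : ({0, 1, a} : Set F).ncard = 3 := by
    rw [Set.ncard_eq_three]
    exact ⟨0, 1, a, zero_ne_one, hcon.1.symm, hcon.2.symm, rfl⟩
  have h2 : ({0, 1, a} : Set F).ncard ≤ Nat.card F := by
    rw [← Set.ncard_univ]
    exact Set.ncard_le_ncard (Set.subset_univ _)
  omega

theorem whirl_not_binary : ¬ InL 2 whirl := by
  rintro ⟨F, _, hF, n, φ, hφ⟩
  have key : ∀ I : Finset (Fin 6), LinearIndepOn F φ (I : Set (Fin 6)) ↔ wInd I := by
    intro I
    rw [← whirl_indep, hφ _ (Set.subset_univ _)]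
  refine no_whirl (field_two hF) φ (fun i j => ?_) ?_ ?_ ?_ ?_
  · have := (key {i, j}).2 (by revert i j; decide)
    simpa using this
  · intro h
    exact absurd ((key {0, 1, 3}).1 (by simpa using h)) (by decide)
  · intro h
    exact absurd ((key {1, 2, 4}).1 (by simpa using h)) (by decide)
  · intro h
    exact absurd ((key {0, 2, 5}).1 (by simpa using h)) (by decide)
  · have := (key {3, 4, 5}).2 (by decide)
    simpa using this

/-! ### Representations of the whirl -/

/-- The six vectors. -/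
def wv {F : Type} [Field F] (a : F) : Fin 6 → (Fin 3 → F) :=
  ![![1, 0, 0], ![0, 1, 0], ![0, 0, 1], ![1, 1, 0], ![0, 1, 1], ![1, 0, a]]

theorem triple {F : Type} [Field F] (a : F) (i j k : Fin 6) (hij : i ≠ j) (hik : i ≠ k)
    (hjk : j ≠ k) (hd : (Matrix.of ![wv a i, wv a j, wv a k]).det ≠ 0) :
    LinearIndepOn F (wv a) {i, j, k} := by
  have h1 : LinearIndependent F (Matrix.of ![wv a i, wv a j, wv a k]).row := by
    rw [Matrix.linearIndependent_rows_iff_isUnit, Matrix.isUnit_iff_isUnit_det]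
    exact isUnit_iff_ne_zero.2 hd
  have hinj : Function.Injective ![i, j, k] := by
    intro s t h
    fin_cases s <;> fin_cases t <;> simp_all
  have h2 : LinearIndepOn F (wv a) (Set.range ![i, j, k]) := by
    rw [linearIndepOn_range_iff hinj]
    have : wv a ∘ ![i, j, k] = (Matrix.of ![wv a i, wv a j, wv a k]).row := by
      funext s
      fin_cases s <;> rfl
    rw [this]
    exact h1
  refine h2.mono ?_
  rintro t (rfl | rfl | rfl)
  · exact ⟨0, rfl⟩
  · exact ⟨1, rfl⟩
  · exact ⟨2, rfl⟩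

theorem cover_dec : ∀ I : Finset (Fin 6), wInd I → ∃ i j k : Fin 6, i < j ∧ j < k ∧
    wInd {i, j, k} ∧ I ⊆ {i, j, k} := by decide +kernel

theorem det_ne {F : Type} [Field F] (a : F) (h0 : a ≠ 0) (h1 : a + 1 ≠ 0) (i j k : Fin 6)
    (hij : i < j) (hjk : j < k) (hw : wInd {i, j, k}) :
    (Matrix.of ![wv a i, wv a j, wv a k]).det ≠ 0 := by
  have h1' : 1 + a ≠ 0 := by rwa [add_comm]
  fin_cases i <;> fin_cases j <;> fin_cases k <;>
    first
    | exact absurd hij (by decide)
    | exact absurd hjk (by decide)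
    | exact absurd hw (by decide)
    | (simp [Matrix.det_fin_three, wv, h0, h1])

theorem whirl_rep {F : Type} [Field F] (a : F) (h0 : a ≠ 0) (h1 : a + 1 ≠ 0)
    (I : Finset (Fin 6)) : LinearIndepOn F (wv a) (I : Set (Fin 6)) ↔ wInd I := by
  constructor
  · intro h
    refine ⟨?_, ?_, ?_, ?_⟩
    · have h2 := LinearIndependent.fintype_card_le_finrank h
      simpa using h2
    · rintro rfl
      have h3 : (({0, 1, 3} : Finset (Fin 6)) : Set (Fin 6)) = insert 3 {0, 1} := by
        ext t; simp only [Finset.coe_insert, Finset.coe_singleton, mem_insert_iff,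
          mem_singleton_iff]; tauto
      rw [h3, linearIndepOn_insert (by simp)] at h
      apply h.2
      rw [image_pair, Submodule.mem_span_pair]
      refine ⟨1, 1, ?_⟩
      ext t; fin_cases t <;> simp [wv]
    · rintro rfl
      have h3 : (({1, 2, 4} : Finset (Fin 6)) : Set (Fin 6)) = insert 4 {1, 2} := by
        ext t; simp only [Finset.coe_insert, Finset.coe_singleton, mem_insert_iff,
          mem_singleton_iff]; tauto
      rw [h3, linearIndepOn_insert (by simp)] at h
      apply h.2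
      rw [image_pair, Submodule.mem_span_pair]
      refine ⟨1, 1, ?_⟩
      ext t; fin_cases t <;> simp [wv]
    · rintro rfl
      have h3 : (({0, 2, 5} : Finset (Fin 6)) : Set (Fin 6)) = insert 5 {0, 2} := by
        ext t; simp only [Finset.coe_insert, Finset.coe_singleton, mem_insert_iff,
          mem_singleton_iff]; tauto
      rw [h3, linearIndepOn_insert (by simp)] at h
      apply h.2
      rw [image_pair, Submodule.mem_span_pair]
      refine ⟨1, a, ?_⟩
      ext t; fin_cases t <;> simp [wv]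
  · intro h
    obtain ⟨i, j, k, hij, hjk, hw, hI⟩ := cover_dec I h
    have h2 := triple a i j k hij.ne (hij.trans hjk).ne hjk.ne (det_ne a h0 h1 i j k hij hjk hw)
    refine h2.mono ?_
    have := Finset.coe_subset.2 hI
    simpa using this

theorem whirl_InL {F : Type} [Field F] (a : F) (h0 : a ≠ 0) (h1 : a + 1 ≠ 0) :
    InL (Nat.card F) whirl := by
  classical
  refine ⟨F, inferInstance, rfl, 3, wv a, fun I _ => ?_⟩
  have := whirl_rep a h0 h1 I.toFinset
  rw [← whirl_indep] at this
  simpa using this.symm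

theorem whirl_three : InL 3 whirl := by
  have := whirl_InL (F := ZMod 3) 1 (by decide) (by decide)
  simpa using this

theorem whirl_five : InL 5 whirl := by
  have h0 : (1 : ZMod 5) ≠ 0 := by decide
  have h1 : (1 : ZMod 5) + 1 ≠ 0 := by decide
  have : Fact (Nat.Prime 5) := ⟨by norm_num⟩
  have h2 := whirl_InL (F := ZMod 5) 1 h0 h1
  simpa using h2

theorem whirl_four : InL 4 whirl := by
  have hc : Nat.card (GaloisField 2 2) = 4 := by
    rw [GaloisField.card 2 2 (by norm_num)]; norm_num
  have : ∃ a : GaloisField 2 2, a ≠ 0 ∧ a + 1 ≠ 0 := by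
    by_contra hcon
    push Not at hcon
    have hfin : Finite (GaloisField 2 2) := Nat.finite_of_card_ne_zero (by omega)
    have h2 : (Set.univ : Set (GaloisField 2 2)) ⊆ {0, -1} := by
      intro a _
      by_cases ha : a = 0
      · exact Or.inl ha
      · exact Or.inr (eq_neg_of_add_eq_zero_left (hcon a ha))
    have h3 := Set.ncard_le_ncard h2 (Set.toFinite _)
    rw [Set.ncard_univ, hc] at h3
    have h4 := Set.ncard_insert_le (0 : GaloisField 2 2) {-1}
    rw [Set.ncard_singleton] at h4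
    omega
  obtain ⟨a, h0, h1⟩ := this
  have := whirl_InL (F := GaloisField 2 2) a h0 h1
  rwa [hc] at this

/-! ### Independence in a minor -/

theorem minor_indep {α : Type} {G K : Matroid α} (h : K ≤m G) :
    ∃ I, G.Indep I ∧ Disjoint K.E I ∧ ∀ J ⊆ K.E, (K.Indep J ↔ G.Indep (J ∪ I)) := by
  obtain ⟨C, D, hC, hD, hCD, rfl⟩ := h.exists_eq_contract_delete_disjoint
  obtain ⟨I, hI⟩ := G.exists_isBasis C hC
  refine ⟨I, hI.indep, ?_, ?_⟩
  · refine Disjoint.mono_right hI.subset ?_
    rw [delete_ground, contract_ground]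
    exact disjoint_sdiff_left.mono_left Set.sdiff_subset
  · intro J hJ
    rw [delete_ground, contract_ground] at hJ
    rw [delete_indep_iff, hI.contract_indep_iff]
    have h1 : Disjoint J D := disjoint_left.2 fun x hx => (hJ hx).2
    have h2 : Disjoint C J := disjoint_right.2 fun x hx => (hJ hx).1.2
    tauto

/-! ### The truncation of the binary projective geometry -/

/-- The space `GF(2)^(n+1)`. -/
abbrev Vn (n : ℕ) : Type := Fin (n + 1) → ZMod 2

theorem aug {n : ℕ} {I J : Set (Vn n)} (hI : LinearIndepOn (ZMod 2) id I)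
    (hJ : LinearIndepOn (ZMod 2) id J) (hlt : I.ncard < J.ncard) :
    ∃ e ∈ J, e ∉ I ∧ LinearIndepOn (ZMod 2) id (insert e I) := by
  classical
  by_contra hcon
  push Not at hcon
  have hsub : J ⊆ Submodule.span (ZMod 2) I := by
    intro e he
    by_contra hne
    have heI : e ∉ I := fun h => hne (Submodule.subset_span h)
    refine hcon e he heI ((linearIndepOn_insert heI).2 ⟨hI, ?_⟩)
    rwa [image_id]
  have h1 : Submodule.span (ZMod 2) J ≤ Submodule.span (ZMod 2) I := Submodule.span_le.2 hsub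
  have h2 := Submodule.finrank_mono h1
  have h3 : finrank (ZMod 2) (Submodule.span (ZMod 2) J) = J.ncard := by
    have := finrank_span_set_eq_card (R := ZMod 2) (s := J) hJ
    rw [this, Set.ncard_eq_toFinset_card']
  have h4 : finrank (ZMod 2) (Submodule.span (ZMod 2) I) = I.ncard := by
    have := finrank_span_set_eq_card (R := ZMod 2) (s := I) hI
    rw [this, Set.ncard_eq_toFinset_card']
  omega

/-- The truncation to rank `n` of the rank-`(n+1)` binary projective geometry. -/
def trunc (n : ℕ) : Matroid (Vn n) :=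
  (IndepMatroid.ofFinite (E := {v : Vn n | v ≠ 0}) (Set.toFinite _)
    (fun I => LinearIndepOn (ZMod 2) id I ∧ I.ncard ≤ n)
    ⟨linearIndepOn_empty _ _, by simp⟩
    (fun I J hJ hIJ => ⟨hJ.1.mono hIJ, (Set.ncard_le_ncard hIJ (Set.toFinite _)).trans hJ.2⟩)
    (fun I J hI hJ hlt => by
      obtain ⟨e, he, heI, h⟩ := aug hI.1 hJ.1 hlt
      refine ⟨e, he, heI, h, ?_⟩
      rw [Set.ncard_insert_of_notMem heI (Set.toFinite _)]
      have := hJ.2
      omega)
    (fun I hI e he => hI.1.ne_zero he)).matroid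

theorem trunc_indep {n : ℕ} {I : Set (Vn n)} :
    (trunc n).Indep I ↔ LinearIndepOn (ZMod 2) id I ∧ I.ncard ≤ n := Iff.rfl

theorem trunc_E {n : ℕ} : (trunc n).E = {v : Vn n | v ≠ 0} := rfl

theorem hF2 : ∀ a : ZMod 2, a = 0 ∨ a = 1 := by decide

theorem pair_indep {n : ℕ} {v w : Vn n} (hv : v ≠ 0) (hw : w ≠ 0) (hvw : v ≠ w) :
    LinearIndepOn (ZMod 2) id ({v, w} : Set (Vn n)) := by
  rw [show ({v, w} : Set (Vn n)) = insert v {w} from rfl,
    linearIndepOn_insert (by simpa using hvw)]
  refine ⟨LinearIndepOn.singleton hw, ?_⟩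
  rw [image_singleton, Submodule.mem_span_singleton]
  rintro ⟨a, ha⟩
  rcases hF2 a with rfl | rfl
  · exact hv (by rw [zero_smul] at ha; exact ha.symm)
  · exact hvw (by rw [one_smul] at ha; exact ha.symm)

theorem trunc_closure {n : ℕ} (hn : 2 ≤ n) {v : Vn n} (hv : v ≠ 0) :
    (trunc n).closure {v} = {v} := by
  have hI : (trunc n).Indep {v} := trunc_indep.2 ⟨LinearIndepOn.singleton hv, by
    rw [Set.ncard_singleton]; omega⟩
  ext w
  rw [hI.mem_closure_iff']
  constructor
  · rintro ⟨hw, h⟩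
    by_contra hne
    refine hne (h (trunc_indep.2 ⟨pair_indep hw hv hne, ?_⟩))
    exact (Set.ncard_insert_le _ _).trans (by rw [Set.ncard_singleton]; omega)
  · intro hw
    have hw' : w = v := hw
    subst hw'
    exact ⟨hv, fun _ => rfl⟩

theorem trunc_points {n : ℕ} (hn : 2 ≤ n) : numPoints (trunc n) = 2 ^ (n + 1) - 1 := by
  have h1 : {P : Set (Vn n) | (trunc n).IsFlat P ∧ (trunc n).eRk P = 1}
      = (fun v : Vn n => ({v} : Set (Vn n))) '' {v | v ≠ 0} := by
    ext P
    constructor
    · rintro ⟨hP, hr⟩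
      obtain ⟨e, heP, he, hsub⟩ := (Matroid.eRk_eq_one_iff hP.subset_ground).1 hr
      have he0 : e ≠ 0 := he.mem_ground
      refine ⟨e, he0, ?_⟩
      refine Set.Subset.antisymm (by simpa using heP) ?_
      change P ⊆ {e}
      rw [← trunc_closure hn he0]
      exact hsub
    · rintro ⟨v, hv, rfl⟩
      have hI : (trunc n).Indep {v} := trunc_indep.2 ⟨LinearIndepOn.singleton hv, by
        rw [Set.ncard_singleton]; omega⟩
      refine ⟨Matroid.isFlat_iff_closure_eq.2 (trunc_closure hn hv), ?_⟩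
      exact Matroid.eRk_singleton_eq_one_iff.2 (Matroid.indep_singleton.1 hI)
  rw [numPoints, h1, Set.ncard_image_of_injective _ Set.singleton_injective]
  have h2 : ({v : Vn n | v ≠ 0} : Set (Vn n)) = Set.univ \ {0} := by
    ext v; simp
  rw [h2, Set.ncard_sdiff_singleton_of_mem (Set.mem_univ _), Set.ncard_univ]
  simp [Vn]

theorem trunc_eRank {n : ℕ} : (trunc n).eRank = n := by
  obtain ⟨B, hB⟩ := (trunc n).exists_isBase
  apply le_antisymm
  · rw [← hB.encard_eq_eRank, ← (Set.toFinite B).cast_ncard_eq]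
    exact_mod_cast (trunc_indep.1 hB.indep).2
  · have hb := (Pi.basisFun (ZMod 2) (Fin (n + 1))).linearIndependent
    have h1 : (Set.range (Pi.basisFun (ZMod 2) (Fin (n + 1)))).ncard = n + 1 := by
      rw [← Nat.card_coe_set_eq, Nat.card_range_of_injective hb.injective, Nat.card_eq_fintype_card,
        Fintype.card_fin]
    obtain ⟨t, ht, htn⟩ := Set.exists_subset_card_eq (n := n)
      (s := Set.range (Pi.basisFun (ZMod 2) (Fin (n + 1)))) (by rw [h1]; omega)
    have ht2 : (trunc n).Indep t := trunc_indep.2 ⟨hb.linearIndepOn_id.mono ht, htn.le⟩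
    have := ht2.encard_le_eRank
    rw [← (Set.toFinite t).cast_ncard_eq, htn] at this
    exact this

theorem minor_trunc {n : ℕ} {K : Matroid (Vn n)} (h : K ≤m trunc n) :
    ∃ I : Set (Vn n), LinearIndepOn (ZMod 2) id I ∧ I.ncard ≤ n ∧
      ∀ J ⊆ K.E, (K.Indep J ↔
        LinearIndepOn (ZMod 2) (Submodule.mkQ (Submodule.span (ZMod 2) I)) J ∧
          J.ncard + I.ncard ≤ n) := by
  obtain ⟨I, hI, hdisj, hJ⟩ := minor_indep h
  have hI' := trunc_indep.1 hI
  refine ⟨I, hI'.1, hI'.2, fun J hJK => ?_⟩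
  have hd : Disjoint I J := (hdisj.mono_left hJK).symm
  rw [hJ J hJK, trunc_indep, Set.ncard_union_eq hd.symm (Set.toFinite _) (Set.toFinite _)]
  have h1 := LinearIndepOn.quotient_iff_union hI'.1 hd
  rw [image_id, Set.union_comm I J] at h1
  rw [← h1]
  rfl

theorem finrank_quot {n : ℕ} {I : Set (Vn n)} (hI : LinearIndepOn (ZMod 2) id I) :
    finrank (ZMod 2) (Vn n ⧸ Submodule.span (ZMod 2) I) + I.ncard = n + 1 := by
  classical
  have h1 := Submodule.finrank_quotient_add_finrank (Submodule.span (ZMod 2) I)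
  have h2 : finrank (ZMod 2) (Submodule.span (ZMod 2) I) = I.ncard := by
    have := finrank_span_set_eq_card (R := ZMod 2) (s := I) hI
    rw [this, Set.ncard_eq_toFinset_card']
  have h3 : finrank (ZMod 2) (Vn n) = n + 1 := by simp [Vn]
  omega

theorem encard_pair_le' {α : Type} (a b : α) : ({a, b} : Set α).encard ≤ 2 := by
  refine (Set.encard_insert_le _ _).trans ?_
  rw [Set.encard_singleton]
  norm_num

theorem trunc_InU {n : ℕ} : InU 6 (trunc n) := by
  rintro ⟨K, hK, hcard, hind⟩
  obtain ⟨I, hI, hIn, hJ⟩ := minor_trunc hK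
  have hfr := finrank_quot hI
  set π := Submodule.mkQ (Submodule.span (ZMod 2) I) with hπ
  have hpair : ∀ a ∈ K.E, ∀ b ∈ K.E, LinearIndepOn (ZMod 2) π {a, b} := by
    intro a ha b hb
    have hsub : ({a, b} : Set (Vn n)) ⊆ K.E := by
      rintro t (rfl | rfl) <;> assumption
    exact ((hJ _ hsub).1 ((hind _ hsub).2 (encard_pair_le' a b))).1
  have h0 : ∀ a ∈ K.E, π a ≠ 0 := fun a ha => (hpair a ha a ha).ne_zero (by simp)
  have hinj : ∀ a ∈ K.E, ∀ b ∈ K.E, π a = π b → a = b := fun a ha b hb hab =>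
    (hpair a ha b hb).injOn (by simp) (by simp) hab
  obtain ⟨a, b, ha, hb, hab⟩ : ∃ a b, a ∈ K.E ∧ b ∈ K.E ∧ a ≠ b := by
    have h8 : 1 < K.E.ncard := by omega
    obtain ⟨a, ha, b, hb, hab⟩ := (Set.one_lt_ncard).1 h8
    exact ⟨a, b, ha, hb, hab⟩
  have hsub : ({a, b} : Set (Vn n)) ⊆ K.E := by
    rintro t (rfl | rfl) <;> assumption
  have h2m : 2 + I.ncard ≤ n := by
    have := ((hJ _ hsub).1 ((hind _ hsub).2 (encard_pair_le' a b))).2
    rwa [Set.ncard_pair hab] at this
  have himg : (π '' K.E).ncard = 8 := by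
    rw [Set.InjOn.ncard_image (fun x hx y hy hxy => hinj x hx y hy hxy), hcard]
  rcases Nat.lt_or_ge n (3 + I.ncard) with hlt | hge
  · -- the quotient has dimension three
    have hf3 : finrank (ZMod 2) (Vn n ⧸ Submodule.span (ZMod 2) I) = 3 := by omega
    have hc : Nat.card (Vn n ⧸ Submodule.span (ZMod 2) I) = 8 := by
      rw [Module.natCard_eq_pow_finrank (K := ZMod 2), hf3]
      simp
    have hsub2 : π '' K.E ⊆ Set.univ \ {0} := by
      rintro _ ⟨x, hx, rfl⟩
      exact ⟨Set.mem_univ _, h0 x hx⟩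
    have hfin : Finite (Vn n ⧸ Submodule.span (ZMod 2) I) :=
      Nat.finite_of_card_ne_zero (by omega)
    have h3 := Set.ncard_le_ncard hsub2 (Set.toFinite _)
    rw [Set.ncard_sdiff_singleton_of_mem (Set.mem_univ _), Set.ncard_univ, hc] at h3
    omega
  · have hsub2 : π '' K.E ⊆ {π a, π b, π a + π b} := by
      rintro _ ⟨c, hc, rfl⟩
      by_cases hca : c = a
      · subst hca; simp
      by_cases hcb : c = b
      · subst hcb; simp
      have hsub3 : ({a, b, c} : Set (Vn n)) ⊆ K.E := by
        rintro t (rfl | rfl | rfl) <;> assumption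
      have hc3 : ({a, b, c} : Set (Vn n)).encard = 3 := by
        rw [Set.encard_eq_three]
        exact ⟨a, b, c, hab, Ne.symm hca, Ne.symm hcb, rfl⟩
      have hn3 : ({a, b, c} : Set (Vn n)).ncard = 3 := by
        rw [Set.ncard_eq_three]
        exact ⟨a, b, c, hab, Ne.symm hca, Ne.symm hcb, rfl⟩
      have hdep : ¬ LinearIndepOn (ZMod 2) π {a, b, c} := by
        intro hli
        have h4 := (hind _ hsub3).1 ((hJ _ hsub3).2 ⟨hli, by rw [hn3]; omega⟩)
        rw [hc3] at h4
        exact absurd h4 (by decide)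
      have h5 := sum_zero hF2 (W := Vn n ⧸ Submodule.span (ZMod 2) I) (fun x => π x) a b c
        (fun h => hab (hinj _ ha _ hb h)) (fun h => hca (hinj _ ha _ hc h).symm)
        (fun h => hcb (hinj _ hb _ hc h).symm) (h0 _ ha) (h0 _ hb) (h0 _ hc) hdep
      rw [h5]
      simp
    have h6 := Set.ncard_le_ncard hsub2 (Set.toFinite _)
    have h7 := Set.ncard_insert_le (π a) {π b, π a + π b}
    have h8 := Set.ncard_insert_le (π b) {π a + π b}
    rw [Set.ncard_singleton] at h8
    omega

theorem trunc_no_whirl {n : ℕ} : ¬ HasMinor (trunc n) whirl := by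
  classical
  rintro ⟨K, hK, e, he⟩
  obtain ⟨I, hI, hIn, hJ⟩ := minor_trunc hK
  set π := Submodule.mkQ (Submodule.span (ZMod 2) I) with hπ
  let y : Fin 6 → Vn n := fun i => (e.symm ⟨i, trivial⟩ : K.E)
  have hy : Function.Injective y := by
    intro i j hij
    have := e.symm.injective (Subtype.ext hij)
    simpa using this
  have hyK : ∀ i, y i ∈ K.E := fun i => (e.symm ⟨i, trivial⟩).2
  have key : ∀ s : Finset (Fin 6), K.Indep (y '' (s : Set (Fin 6))) ↔ wInd s := by
    intro s
    have h1 := he {k | (e k : Fin 6) ∈ s}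
    have h2 : Subtype.val '' {k : K.E | (e k : Fin 6) ∈ s} = y '' (s : Set (Fin 6)) := by
      ext t
      constructor
      · rintro ⟨k, hk, rfl⟩
        refine ⟨(e k : Fin 6), hk, ?_⟩
        simp [y]
      · rintro ⟨i, hi, rfl⟩
        refine ⟨e.symm ⟨i, trivial⟩, ?_, rfl⟩
        simpa using hi
    have h3 : Subtype.val '' (e '' {k : K.E | (e k : Fin 6) ∈ s}) = (s : Set (Fin 6)) := by
      ext t
      constructor
      · rintro ⟨_, ⟨k, hk, rfl⟩, rfl⟩
        exact hk
      · intro ht
        exact ⟨⟨t, trivial⟩, ⟨e.symm ⟨t, trivial⟩, by simpa using ht, by simp⟩, rfl⟩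
    rw [h2, h3] at h1
    rw [h1, whirl_indep]
  have hsubK : ∀ s : Finset (Fin 6), y '' (s : Set (Fin 6)) ⊆ K.E := by
    rintro s _ ⟨i, _, rfl⟩
    exact hyK i
  have hcard : ∀ s : Finset (Fin 6), (y '' (s : Set (Fin 6))).ncard = s.card := by
    intro s
    rw [Set.ncard_image_of_injective _ hy, Set.ncard_coe_finset]
  -- transfer to vectors
  have hx : ∀ s : Finset (Fin 6), LinearIndepOn (ZMod 2) (fun i => π (y i)) (s : Set (Fin 6)) ↔
      LinearIndepOn (ZMod 2) π (y '' (s : Set (Fin 6))) := by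
    intro s
    constructor
    · intro h
      exact LinearIndepOn.image_of_comp y π h
    · intro h
      exact h.comp_of_image hy.injOn
  have h3n : 3 + I.ncard ≤ n := by
    have := ((hJ _ (hsubK {3, 4, 5})).1 ((key {3, 4, 5}).2 (by decide))).2
    rwa [hcard] at this
  have hdep : ∀ s : Finset (Fin 6), s.card ≤ 3 → ¬ wInd s →
      ¬ LinearIndepOn (ZMod 2) (fun i => π (y i)) (s : Set (Fin 6)) := by
    intro s hs hw h
    apply hw
    rw [← key, hJ _ (hsubK s)]
    exact ⟨(hx s).1 h, by rw [hcard]; omega⟩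
  have hindep : ∀ s : Finset (Fin 6), wInd s →
      LinearIndepOn (ZMod 2) (fun i => π (y i)) (s : Set (Fin 6)) := by
    intro s hw
    exact (hx s).2 ((hJ _ (hsubK s)).1 ((key s).2 hw)).1
  refine no_whirl hF2 (fun i => π (y i)) (fun i j => ?_) ?_ ?_ ?_ ?_
  · have := hindep {i, j} (by revert i j; decide)
    simpa using this
  · have := hdep {0, 1, 3} (by decide) (by decide)
    simpa using this
  · have := hdep {1, 2, 4} (by decide) (by decide)
    simpa using this
  · have := hdep {0, 2, 5} (by decide) (by decide)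
    simpa using this
  · have := hindep {3, 4, 5} (by decide)
    simpa using this

theorem whirl_InU : InU 6 whirl := by
  rintro ⟨K, hK, hcard, -⟩
  have h1 := Set.ncard_le_ncard hK.subset (Set.toFinite _)
  rw [whirl_E, Set.ncard_univ, hcard, Nat.card_eq_fintype_card, Fintype.card_fin] at h1
  omega

/-- The collection consisting of the whirl. -/
def coll : Unit → Matroid (Fin 6) := fun _ => whirl

theorem coll_good : IsGreatest (goodPowers 6 coll) 2 := by
  constructor
  · exact ⟨Nat.prime_two.isPrimePow, by norm_num, fun _ => whirl_not_binary⟩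
  · rintro r ⟨hr, hr6, hrL⟩
    by_contra hlt
    push Not at hlt
    have hr' : r = 3 ∨ r = 4 ∨ r = 5 ∨ r = 6 := by omega
    rcases hr' with rfl | rfl | rfl | rfl
    · exact hrL () whirl_three
    · exact hrL () whirl_four
    · exact hrL () whirl_five
    · rw [isPrimePow_nat_iff] at hr
      obtain ⟨p, k, hp, hk, hpk⟩ := hr
      have hp2 : p ∣ 6 := by rw [← hpk]; exact dvd_pow_self p hk.ne'
      have h2 : 2 ∣ p := by
        have : 2 ∣ p ^ k := by rw [hpk]; norm_num
        exact Nat.prime_two.dvd_of_dvd_pow this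
      have h3 : 3 ∣ p := by
        have : 3 ∣ p ^ k := by rw [hpk]; norm_num
        exact Nat.prime_three.dvd_of_dvd_pow this
      rw [(Nat.prime_dvd_prime_iff_eq Nat.prime_two hp)] at h2
      rw [(Nat.prime_dvd_prime_iff_eq Nat.prime_three hp)] at h3
      omega

theorem mem_sizes {n : ℕ} (hn : 2 ≤ n) : 2 ^ (n + 1) - 1 ∈ sizes 6 coll n :=
  ⟨Vn n, trunc n, ⟨Set.toFinite _⟩, fun _ => trunc_no_whirl, trunc_InU, trunc_eRank,
    trunc_points hn⟩

/-- **Main result.** -/
theorem result :
    ((∀ i, (coll i).Finite ∧ InU 6 (coll i)) ∧ IsGreatest (goodPowers 6 coll) 2 ∧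
      ∀ n, 2 ≤ n → 2 ^ (n + 1) - 1 ∈ sizes 6 coll n) ∧ ¬ Conjecture := by
  have h1 : ∀ i, (coll i).Finite ∧ InU 6 (coll i) := fun _ => ⟨⟨Set.toFinite _⟩, whirl_InU⟩
  refine ⟨⟨h1, coll_good, fun n hn => mem_sizes hn⟩, fun hC => ?_⟩
  obtain ⟨N, hN⟩ := hC 6 (by norm_num) Unit (fun _ => Fin 6) coll h1 2 coll_good
  have h2 := (hN (N + 2) (by omega)).2 (mem_sizes (n := N + 2) (by omega))
  have h3 : 1 ≤ 2 ^ (N + 2) := Nat.one_le_two_pow
  rw [pow_succ 2 (N + 2)] at h2
  simp at h2
  omega

end Pool.Agent.Results.MP_f02e69_co.TruncatedBinary
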